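import Pool.Agent.Helper47.SG.Psi

/-!
# Analytic solutions of the curve equation on discs (MP_835038_nt)
-/

set_option autoImplicit false

open Filter Topology Complex Metric Set

namespace Pool.Agent.Helper47.SG

/-- The radius of the disc of analyticity around the point `(x, y)` of the curve. -/
noncomputable def rad (x y : ℝ) : ℝ := x / (400 * (1 + Real.log (y / x)))

theorem rad_pos {x y : ℝ} (hx : 0 < x) (hy : 2 * x ≤ y) : 0 < rad x y := by
  have : 0 ≤ Real.log (y / x) := Real.log_nonneg (by rw [le_div_iff₀ hx]; linarith)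
  unfold rad
  positivity

theorem rad_le {x y : ℝ} (hx : 0 < x) (hy : 2 * x ≤ y) : rad x y ≤ x / 400 := by
  have : 0 ≤ Real.log (y / x) := Real.log_nonneg (by rw [le_div_iff₀ hx]; linarith)
  unfold rad
  apply div_le_div_of_nonneg_left hx.le (by norm_num)
  linarith

theorem rad_mul {x y : ℝ} (hx : 0 < x) (hy : 2 * x ≤ y) : rad x y * (1 + Real.log (y / x)) = x / 400 := by
  have : 0 ≤ Real.log (y / x) := Real.log_nonneg (by rw [le_div_iff₀ hx]; linarith)
  unfold rad
  field_simp

/-- The Newton map with frozen derivative. -/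
noncomputable def newt (x y α : ℝ) (t z : ℂ) : ℂ := t - FF α t z / (DD x y : ℂ)

section

variable {x y α : ℝ}

theorem newt_lip (hx : 1000 ≤ x) (hy : 2 * x ≤ y) {z s t : ℂ} (hz : ‖z - (x : ℂ)‖ ≤ x / 400)
    (hs : ‖s - (Real.log y : ℂ)‖ ≤ 1 / 100) (ht : ‖t - (Real.log y : ℂ)‖ ≤ 1 / 100) :
    ‖newt x y α t z - newt x y α s z‖ ≤ 1 / 2 * ‖t - s‖ := by
  have hx0 : 0 < x := by linarith
  have hD : x ≤ DD x y := DD_ge hx0 hy
  have hD0 : 0 < DD x y := by linarith
  have hc : Convex ℝ (closedBall (Real.log y : ℂ) (1 / 100)) := convex_closedBall _ _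
  have key : ∀ w ∈ closedBall (Real.log y : ℂ) (1 / 100), HasDerivWithinAt (fun t => newt x y α t z) (1 - FT w z / (DD x y : ℂ))
      (closedBall (Real.log y : ℂ) (1 / 100)) w := by
    intro w hw
    have hw' : ‖w - (Real.log y : ℂ)‖ ≤ 1 / 100 := by simpa [dist_eq_norm] using hw
    have hd := hasDerivAt_FF_t (x := x) (y := y) (t := w) (z := z) hx0 hy ⟨hw', hz⟩ α
    exact ((hasDerivAt_id w).sub (hd.div_const (DD x y : ℂ))).hasDerivWithinAt
  have hb : ∀ w ∈ closedBall (Real.log y : ℂ) (1 / 100), ‖1 - FT w z / (DD x y : ℂ)‖ ≤ 1 / 2 := by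
    intro w hw
    have hw' : ‖w - (Real.log y : ℂ)‖ ≤ 1 / 100 := by simpa [dist_eq_norm] using hw
    have hf := norm_FT_sub hx hy ⟨hw', hz⟩
    have hne : (DD x y : ℂ) ≠ 0 := by exact_mod_cast hD0.ne'
    have e : 1 - FT w z / (DD x y : ℂ) = -(FT w z - (DD x y : ℂ)) / (DD x y : ℂ) := by
      field_simp
      ring
    rw [e, norm_div, norm_neg, Complex.norm_real, Real.norm_of_nonneg hD0.le, div_le_iff₀ hD0]
    linarith
  exact hc.norm_image_sub_le_of_norm_hasDerivWithin_le key hb (by simpa [dist_eq_norm] using hs) (by simpa [dist_eq_norm] using ht)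

/-- The base point is a solution. -/
def Base (x y α : ℝ) : Prop := FF α (Real.log y : ℂ) (x : ℂ) = 0

theorem norm_FF_le (hx : 1000 ≤ x) (hy : 2 * x ≤ y) (hb : Base x y α) {z : ℂ} (hz : ‖z - (x : ℂ)‖ ≤ rad x y) :
    ‖FF α (Real.log y : ℂ) z‖ ≤ x / 400 := by
  have hx0 : 0 < x := by linarith
  have hl : 0 ≤ Real.log (y / x) := Real.log_nonneg (by rw [le_div_iff₀ hx0]; linarith)
  have hr := rad_le hx0 hy
  have hr0 := rad_pos hx0 hy
  have hc : Convex ℝ (closedBall (x : ℂ) (rad x y)) := convex_closedBall _ _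
  have key : ∀ w ∈ closedBall (x : ℂ) (rad x y), HasDerivWithinAt (fun z => FF α (Real.log y : ℂ) z) (FZ (Real.log y : ℂ) w)
      (closedBall (x : ℂ) (rad x y)) w := by
    intro w hw
    have hw' : ‖w - (x : ℂ)‖ ≤ rad x y := by simpa [dist_eq_norm] using hw
    exact (hasDerivAt_FF_z (x := x) (y := y) (t := (Real.log y : ℂ)) (z := w) hx0 hy ⟨by simp, hw'.trans hr⟩ α).hasDerivWithinAt
  have hbd : ∀ w ∈ closedBall (x : ℂ) (rad x y), ‖FZ (Real.log y : ℂ) w‖ ≤ 1 + Real.log (y / x) := by
    intro w hw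
    have hw' : ‖w - (x : ℂ)‖ ≤ rad x y := by simpa [dist_eq_norm] using hw
    exact norm_FZ_le hx hy (hw'.trans hr)
  have h := hc.norm_image_sub_le_of_norm_hasDerivWithin_le key hbd (mem_closedBall_self hr0.le) (y := z) (by simpa [dist_eq_norm] using hz)
  have hb' : FF α (Real.log y : ℂ) (x : ℂ) = 0 := hb
  simp only [hb', sub_zero] at h
  calc ‖FF α (Real.log y : ℂ) z‖ ≤ (1 + Real.log (y / x)) * ‖z - (x : ℂ)‖ := h
    _ ≤ (1 + Real.log (y / x)) * rad x y := by gcongr
    _ = x / 400 := by rw [mul_comm]; exact rad_mul hx0 hy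

theorem newt_base (hx : 1000 ≤ x) (hy : 2 * x ≤ y) (hb : Base x y α) {z : ℂ} (hz : ‖z - (x : ℂ)‖ ≤ rad x y) :
    ‖newt x y α (Real.log y : ℂ) z - (Real.log y : ℂ)‖ ≤ 1 / 400 := by
  have hx0 : 0 < x := by linarith
  have hD : x ≤ DD x y := DD_ge hx0 hy
  have hD0 : 0 < DD x y := by linarith
  have e : newt x y α (Real.log y : ℂ) z - (Real.log y : ℂ) = -(FF α (Real.log y : ℂ) z / (DD x y : ℂ)) := by
    unfold newt
    ring
  rw [e, norm_neg, norm_div, Complex.norm_real, Real.norm_of_nonneg hD0.le, div_le_iff₀ hD0]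
  have := norm_FF_le hx hy hb hz
  linarith

/-- The iterates. -/
noncomputable def iter (x y α : ℝ) : ℕ → ℂ → ℂ
  | 0 => fun _ => (Real.log y : ℂ)
  | n + 1 => fun z => newt x y α (iter x y α n z) z

theorem iter_bd (hx : 1000 ≤ x) (hy : 2 * x ≤ y) (hb : Base x y α) {z : ℂ} (hz : ‖z - (x : ℂ)‖ ≤ rad x y) (n : ℕ) :
    ‖iter x y α n z - (Real.log y : ℂ)‖ ≤ 1 / 200 * (1 - (1 / 2) ^ n) ∧
    ‖iter x y α (n + 1) z - iter x y α n z‖ ≤ 1 / 400 * (1 / 2) ^ n := by
  have hx0 : 0 < x := by linarith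
  have hz' : ‖z - (x : ℂ)‖ ≤ x / 400 := hz.trans (rad_le hx0 hy)
  induction n with
  | zero =>
    constructor
    · simp [iter]
    · simpa [iter] using newt_base hx hy hb hz
  | succ n ih =>
    have hp : (0 : ℝ) < (1 / 2) ^ n := by positivity
    have h1 : ‖iter x y α (n + 1) z - (Real.log y : ℂ)‖ ≤ 1 / 200 * (1 - (1 / 2) ^ (n + 1)) := by
      have e : iter x y α (n + 1) z - (Real.log y : ℂ) = (iter x y α (n + 1) z - iter x y α n z) + (iter x y α n z - (Real.log y : ℂ)) := by ring
      rw [e]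
      refine (norm_add_le _ _).trans ?_
      rw [pow_succ]
      linarith [ih.1, ih.2]
    refine ⟨h1, ?_⟩
    have h2 : ‖iter x y α (n + 1) z - (Real.log y : ℂ)‖ ≤ 1 / 100 := by
      refine h1.trans ?_
      have : (0 : ℝ) < (1 / 2) ^ (n + 1) := by positivity
      linarith
    have h3 : ‖iter x y α n z - (Real.log y : ℂ)‖ ≤ 1 / 100 := by
      refine ih.1.trans ?_
      linarith
    have h4 := newt_lip (α := α) hx hy hz' h3 h2
    have e : iter x y α (n + 1 + 1) z - iter x y α (n + 1) z = newt x y α (iter x y α (n + 1) z) z - newt x y α (iter x y α n z) z := rfl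
    rw [e]
    refine h4.trans ?_
    rw [pow_succ]
    linarith [ih.2]

theorem iter_diff (hx : 1000 ≤ x) (hy : 2 * x ≤ y) (hb : Base x y α) (n : ℕ) :
    DifferentiableOn ℂ (iter x y α n) (ball (x : ℂ) (rad x y)) := by
  have hx0 : 0 < x := by linarith
  induction n with
  | zero => exact differentiableOn_const _
  | succ n ih =>
    intro z hz
    have hz1 : ‖z - (x : ℂ)‖ ≤ rad x y := by
      have := mem_ball.1 hz
      rw [dist_eq_norm] at this
      exact this.le
    have hb1 := (iter_bd hx hy hb hz1 n).1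
    have hdom : Dom x y (iter x y α n z) z := by
      refine ⟨hb1.trans ?_, hz1.trans (rad_le hx0 hy)⟩
      have : (0 : ℝ) < (1 / 2) ^ n := by positivity
      linarith
    have h1 : 0 < (Complex.exp (iter x y α n z)).re := lt_of_lt_of_le (by linarith) (hdom.re_Y (by linarith))
    have h2 : 0 < (Complex.exp (iter x y α n z) - z).re := lt_of_lt_of_le (by linarith) (hdom.re_Yz hx0 hy)
    have h3 : 0 < z.re := lt_of_lt_of_le (by linarith) hdom.re_z
    have d0 : DifferentiableAt ℂ (iter x y α n) z := (ih z hz).differentiableAt (isOpen_ball.mem_nhds hz)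
    have dE : DifferentiableAt ℂ (fun z => Complex.exp (iter x y α n z)) z := d0.cexp
    have d1 : DifferentiableAt ℂ (fun z => lam (Complex.exp (iter x y α n z))) z :=
      DifferentiableAt.fun_comp' z (hasDerivAt_lam h1).differentiableAt dE
    have d2 : DifferentiableAt ℂ (fun z => lam (Complex.exp (iter x y α n z) - z)) z :=
      DifferentiableAt.fun_comp' (f := fun z => Complex.exp (iter x y α n z) - z) z (hasDerivAt_lam h2).differentiableAt (dE.sub differentiableAt_id)
    have d3 : DifferentiableAt ℂ lam z := (hasDerivAt_lam h3).differentiableAt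
    have : DifferentiableAt ℂ (fun z => newt x y α (iter x y α n z) z) z := by
      unfold newt FF
      exact d0.sub ((((d1.sub d3).sub d2).sub_const _).div_const _)
    exact this.differentiableWithinAt

theorem FF_real {t z : ℂ} (_hY : 0 < (Complex.exp t).re) (hYz : 0 < (Complex.exp t - z).re) (hz0 : 0 < z.re) (ht : t.im = 0) (hz : z.im = 0) :
    (FF α t z).im = 0 := by
  have et : t = (t.re : ℂ) := by apply Complex.ext <;> simp [ht]
  have ez : z = (z.re : ℂ) := by apply Complex.ext <;> simp [hz]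
  have eY : Complex.exp t = (Real.exp t.re : ℂ) := by
    conv_lhs => rw [et]
    rw [Complex.ofReal_exp]
  have eYz : Complex.exp t - z = ((Real.exp t.re - z.re : ℝ) : ℂ) := by
    rw [eY]
    conv_lhs => rw [ez]
    push_cast
    ring
  have h2 : 0 < Real.exp t.re - z.re := by
    rw [eYz, Complex.ofReal_re] at hYz
    exact hYz
  have e3 : lam z = (lamR z.re : ℂ) := by
    conv_lhs => rw [ez]
    exact lam_ofReal hz0
  unfold FF
  rw [eYz, eY, e3, lam_ofReal (Real.exp_pos _), lam_ofReal h2]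
  simp

theorem iter_real (hx : 1000 ≤ x) (hy : 2 * x ≤ y) (hb : Base x y α) {z : ℂ} (hz : ‖z - (x : ℂ)‖ ≤ rad x y) (hzr : z.im = 0) (n : ℕ) :
    (iter x y α n z).im = 0 := by
  have hx0 : 0 < x := by linarith
  induction n with
  | zero => simp [iter]
  | succ n ih =>
    have hb1 := (iter_bd hx hy hb hz n).1
    have hdom : Dom x y (iter x y α n z) z := by
      refine ⟨hb1.trans ?_, hz.trans (rad_le hx0 hy)⟩
      have : (0 : ℝ) < (1 / 2) ^ n := by positivity
      linarith
    have h1 : 0 < (Complex.exp (iter x y α n z)).re := lt_of_lt_of_le (by linarith) (hdom.re_Y (by linarith))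
    have h2 : 0 < (Complex.exp (iter x y α n z) - z).re := lt_of_lt_of_le (by linarith) (hdom.re_Yz hx0 hy)
    have h3 : 0 < z.re := lt_of_lt_of_le (by linarith) hdom.re_z
    have h4 := FF_real (α := α) h1 h2 h3 ih hzr
    show (newt x y α (iter x y α n z) z).im = 0
    unfold newt
    rw [Complex.sub_im, ih, Complex.div_ofReal_im, h4]
    simp

/-- **The local solution.** -/
theorem local_solution (hx : 1000 ≤ x) (hy : 2 * x ≤ y) (hb : Base x y α) :
    ∃ g : ℂ → ℂ, DifferentiableOn ℂ g (ball (x : ℂ) (rad x y)) ∧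
      ∀ z ∈ ball (x : ℂ) (rad x y), ‖g z - (Real.log y : ℂ)‖ ≤ 1 / 200 ∧ FF α (g z) z = 0 ∧ (z.im = 0 → (g z).im = 0) := by
  have hx0 : 0 < x := by linarith
  have hball : ∀ z ∈ ball (x : ℂ) (rad x y), ‖z - (x : ℂ)‖ ≤ rad x y := by
    intro z hz
    have := mem_ball.1 hz
    rw [dist_eq_norm] at this
    exact this.le
  have hlim : ∀ z ∈ ball (x : ℂ) (rad x y), ∃ w, Tendsto (fun n => iter x y α n z) atTop (𝓝 w) ∧ ∀ n, ‖iter x y α n z - w‖ ≤ 1 / 200 * (1 / 2) ^ n := by
    intro z hz
    have h1 : ∀ n, dist (iter x y α n z) (iter x y α (n + 1) z) ≤ 1 / 400 * (1 / 2) ^ n := by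
      intro n
      rw [dist_comm, dist_eq_norm]
      exact (iter_bd hx hy hb (hball z hz) n).2
    have hcau : CauchySeq fun n => iter x y α n z := cauchySeq_of_le_geometric (1 / 2) (1 / 400) (by norm_num) h1
    obtain ⟨w, hw⟩ := cauchySeq_tendsto_of_complete hcau
    refine ⟨w, hw, fun n => ?_⟩
    have := dist_le_of_le_geometric_of_tendsto (1 / 2) (1 / 400) (by norm_num) h1 hw n
    rw [dist_eq_norm] at this
    refine this.trans (le_of_eq ?_)
    ring
  choose! g hg1 hg2 using hlim
  have hunif : TendstoUniformlyOn (iter x y α) g atTop (ball (x : ℂ) (rad x y)) := by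
    rw [Metric.tendstoUniformlyOn_iff]
    intro ε hε
    have h1 : Tendsto (fun n : ℕ => (1 / 200 : ℝ) * (1 / 2) ^ n) atTop (𝓝 0) := by
      simpa using (tendsto_pow_atTop_nhds_zero_of_lt_one (by norm_num : (0 : ℝ) ≤ 1 / 2) (by norm_num)).const_mul (1 / 200 : ℝ)
    filter_upwards [h1.eventually (gt_mem_nhds hε)] with n hn z hz
    rw [dist_comm, dist_eq_norm]
    exact (hg2 z hz n).trans_lt hn
  refine ⟨g, ?_, fun z hz => ?_⟩
  · exact hunif.tendstoLocallyUniformlyOn.differentiableOn (Eventually.of_forall fun n => iter_diff hx hy hb n) isOpen_ball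
  · have hb0 : ‖g z - (Real.log y : ℂ)‖ ≤ 1 / 200 := by
      have h1 := hg2 z hz 0
      have h2 : iter x y α 0 z = (Real.log y : ℂ) := rfl
      rw [h2, norm_sub_rev] at h1
      simpa using h1
    have hdom : Dom x y (g z) z := ⟨hb0.trans (by norm_num), (hball z hz).trans (rad_le hx0 hy)⟩
    refine ⟨hb0, ?_, ?_⟩
    · -- the limit solves the equation
      have hcont : ContinuousAt (fun t => FF α t z) (g z) := (hasDerivAt_FF_t hx0 hy hdom α).continuousAt
      have h1 : Tendsto (fun n => FF α (iter x y α n z) z) atTop (𝓝 (FF α (g z) z)) := hcont.tendsto.comp (hg1 z hz)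
      have hD : x ≤ DD x y := DD_ge hx0 hy
      have hne : (DD x y : ℂ) ≠ 0 := by exact_mod_cast (by linarith : DD x y ≠ 0)
      have h2 : ∀ n, FF α (iter x y α n z) z = (DD x y : ℂ) * (iter x y α n z - iter x y α (n + 1) z) := by
        intro n
        have e : iter x y α (n + 1) z = newt x y α (iter x y α n z) z := rfl
        rw [e]
        unfold newt
        field_simp
        ring
      simp_rw [h2] at h1
      have h3 : Tendsto (fun n => (DD x y : ℂ) * (iter x y α n z - iter x y α (n + 1) z)) atTop (𝓝 ((DD x y : ℂ) * (g z - g z))) :=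
        ((hg1 z hz).sub ((hg1 z hz).comp (tendsto_add_atTop_nat 1))).const_mul _
      rw [sub_self, mul_zero] at h3
      exact tendsto_nhds_unique h1 h3
    · intro hzr
      have h1 : Tendsto (fun n => (iter x y α n z).im) atTop (𝓝 (g z).im) := (Complex.continuous_im.tendsto _).comp (hg1 z hz)
      simp_rw [iter_real hx hy hb (hball z hz) hzr] at h1
      exact tendsto_nhds_unique h1 tendsto_const_nhds

end

end Pool.Agent.Helper47.SG
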