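import Mathlib

/-!
# The logarithm of the Gamma function in the right half plane (MP_835038_nt)

`lam z = ∑ (z log(1 + 1/(j+1)) - log(1 + z/(j+1)))` is `log Γ(z + 1)`: analytic for `Re z > 0`, `lam k = log k!`,
`lam (z + 1) = lam z + log (z + 1)`, and `|lam' z - log z| ≤ 4/|z|` for `Re z > 0`, `|z| ≥ 2`.
-/

set_option autoImplicit false

open Filter Topology Complex

namespace Pool.Agent.Helper47.SG

/-- The `j`-th term. -/
noncomputable def lamT (j : ℕ) (z : ℂ) : ℂ :=
  z * ((Real.log ((j : ℝ) + 2) - Real.log ((j : ℝ) + 1) : ℝ) : ℂ) - (Complex.log ((j : ℂ) + 1 + z) - Complex.log ((j : ℂ) + 1))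

/-- The derivative of the `j`-th term. -/
noncomputable def lamT' (j : ℕ) (z : ℂ) : ℂ :=
  ((Real.log ((j : ℝ) + 2) - Real.log ((j : ℝ) + 1) : ℝ) : ℂ) - 1 / ((j : ℂ) + 1 + z)

/-- `log Γ(z + 1)`. -/
noncomputable def lam (z : ℂ) : ℂ := ∑' j : ℕ, lamT j z

/-- The derivative of `lam`. -/
noncomputable def lam' (z : ℂ) : ℂ := ∑' j : ℕ, lamT' j z

theorem re_pos_slit {w : ℂ} (h : 0 < w.re) : w ∈ slitPlane := Or.inl h

theorem re_shift (j : ℕ) {z : ℂ} (h : 0 < z.re) : 0 < ((j : ℂ) + 1 + z).re := by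
  simp only [add_re, natCast_re, one_re]
  positivity

theorem norm_shift (j : ℕ) {z : ℂ} (h : 0 < z.re) : (j : ℝ) + 1 ≤ ‖(j : ℂ) + 1 + z‖ := by
  have h1 : ((j : ℂ) + 1 + z).re ≤ ‖(j : ℂ) + 1 + z‖ := Complex.re_le_norm _
  simp only [add_re, natCast_re, one_re] at h1
  linarith

theorem hasDerivAt_lamT (j : ℕ) {z : ℂ} (h : 0 < z.re) : HasDerivAt (lamT j) (lamT' j z) z := by
  have h1 : HasDerivAt (fun z : ℂ => (j : ℂ) + 1 + z) 1 z := by
    simpa using (hasDerivAt_id z).const_add ((j : ℂ) + 1)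
  have h2 := (h1.clog (re_pos_slit (re_shift j h)))
  have h3 : HasDerivAt (fun z : ℂ => z * ((Real.log ((j : ℝ) + 2) - Real.log ((j : ℝ) + 1) : ℝ) : ℂ))
      ((Real.log ((j : ℝ) + 2) - Real.log ((j : ℝ) + 1) : ℝ) : ℂ) z := by
    simpa using (hasDerivAt_id z).mul_const ((Real.log ((j : ℝ) + 2) - Real.log ((j : ℝ) + 1) : ℝ) : ℂ)
  exact h3.sub (h2.sub_const _)

theorem log_diff (j : ℕ) : |Real.log ((j : ℝ) + 2) - Real.log ((j : ℝ) + 1) - 1 / ((j : ℝ) + 1)| ≤ 1 / ((j : ℝ) + 1) ^ 2 := by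
  have hj : (0 : ℝ) < (j : ℝ) + 1 := by positivity
  have e : Real.log ((j : ℝ) + 2) - Real.log ((j : ℝ) + 1) = Real.log (1 + 1 / ((j : ℝ) + 1)) := by
    rw [← Real.log_div (by positivity) (by positivity)]
    congr 1
    field_simp
    ring
  rw [e]
  have h1 : Real.log (1 + 1 / ((j : ℝ) + 1)) ≤ 1 / ((j : ℝ) + 1) := by
    have := Real.log_le_sub_one_of_pos (x := 1 + 1 / ((j : ℝ) + 1)) (by positivity)
    linarith
  have h2 : 1 - (1 + 1 / ((j : ℝ) + 1))⁻¹ ≤ Real.log (1 + 1 / ((j : ℝ) + 1)) :=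
    Real.one_sub_inv_le_log_of_pos (by positivity)
  have h3 : 1 - (1 + 1 / ((j : ℝ) + 1))⁻¹ = 1 / ((j : ℝ) + 2) := by
    field_simp
    ring
  rw [abs_le]
  constructor
  · have h4 : 1 / ((j : ℝ) + 1) - 1 / ((j : ℝ) + 1) ^ 2 ≤ 1 / ((j : ℝ) + 2) := by
      rw [div_sub_div _ _ (by positivity) (by positivity), div_le_div_iff₀ (by positivity) (by positivity)]
      nlinarith [hj, sq_nonneg ((j : ℝ) + 1)]
    linarith
  · have : 0 ≤ 1 / ((j : ℝ) + 1) ^ 2 := by positivity
    linarith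

theorem norm_lamT' (j : ℕ) {z : ℂ} (h : 0 < z.re) : ‖lamT' j z‖ ≤ (1 + ‖z‖) * (1 / ((j : ℝ) + 1) ^ 2) := by
  have hj : (0 : ℝ) < (j : ℝ) + 1 := by positivity
  have hs := norm_shift j h
  have hne : ((j : ℂ) + 1 + z) ≠ 0 := by
    intro h0
    rw [h0, norm_zero] at hs
    linarith
  have hne1 : ((j : ℂ) + 1) ≠ 0 := Nat.cast_add_one_ne_zero j
  have e : lamT' j z = ((Real.log ((j : ℝ) + 2) - Real.log ((j : ℝ) + 1) - 1 / ((j : ℝ) + 1) : ℝ) : ℂ)
      + z / (((j : ℂ) + 1) * ((j : ℂ) + 1 + z)) := by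
    unfold lamT'
    push_cast
    field_simp
    ring
  rw [e]
  refine (norm_add_le _ _).trans ?_
  rw [Complex.norm_real, Real.norm_eq_abs, norm_div, norm_mul]
  have h1 := log_diff j
  have h2 : ‖(j : ℂ) + 1‖ = (j : ℝ) + 1 := by
    have : ((j : ℂ) + 1) = (((j : ℝ) + 1 : ℝ) : ℂ) := by push_cast; rfl
    rw [this, Complex.norm_real, Real.norm_of_nonneg hj.le]
  rw [h2]
  have h3 : ‖z‖ / (((j : ℝ) + 1) * ‖(j : ℂ) + 1 + z‖) ≤ ‖z‖ * (1 / ((j : ℝ) + 1) ^ 2) := by
    rw [mul_one_div]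
    apply div_le_div_of_nonneg_left (norm_nonneg z) (by positivity)
    rw [sq]
    exact mul_le_mul_of_nonneg_left hs hj.le
  calc _ ≤ 1 / ((j : ℝ) + 1) ^ 2 + ‖z‖ * (1 / ((j : ℝ) + 1) ^ 2) := add_le_add h1 h3
    _ = _ := by ring

theorem summable_sq : Summable fun j : ℕ => 1 / ((j : ℝ) + 1) ^ 2 := by
  have := (summable_nat_add_iff (f := fun n : ℕ => 1 / (n : ℝ) ^ 2) 1).2 (Real.summable_one_div_nat_pow.2 (by norm_num))
  simpa using this

theorem lamT_one (j : ℕ) : lamT j 1 = 0 := by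
  unfold lamT
  have h1 : Complex.log ((j : ℂ) + 1 + 1) = ((Real.log ((j : ℝ) + 2) : ℝ) : ℂ) := by
    rw [Complex.ofReal_log (by positivity)]
    congr 1
    push_cast
    ring
  have h2 : Complex.log ((j : ℂ) + 1) = ((Real.log ((j : ℝ) + 1) : ℝ) : ℂ) := by
    rw [Complex.ofReal_log (by positivity)]
    congr 1
    push_cast
    ring
  rw [h1, h2]
  push_cast
  ring

theorem hasDerivAt_lam {z : ℂ} (h : 0 < z.re) : HasDerivAt lam (lam' z) z := by
  set R : ℝ := ‖z‖ + 2 with hR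
  have hRn : 0 ≤ ‖z‖ := norm_nonneg z
  let t : Set ℂ := {w | 0 < w.re} ∩ Metric.ball 0 R
  have ho : IsOpen t := (isOpen_lt continuous_const Complex.continuous_re).inter Metric.isOpen_ball
  have hc : Convex ℝ t := (convex_halfSpace_re_gt 0).inter (convex_ball 0 R)
  have hu : Summable fun j : ℕ => (1 + R) * (1 / ((j : ℝ) + 1) ^ 2) := summable_sq.mul_left _
  refine hasDerivAt_tsum_of_isPreconnected (u := fun j : ℕ => (1 + R) * (1 / ((j : ℝ) + 1) ^ 2)) (t := t) (y₀ := 1)
    hu ho hc.isPreconnected (fun j y hy => hasDerivAt_lamT j hy.1) (fun j y hy => ?_) ?_ ?_ ?_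
  · refine (norm_lamT' j hy.1).trans ?_
    have h1 : ‖y‖ < R := by simpa using hy.2
    exact mul_le_mul_of_nonneg_right (by linarith) (by positivity)
  · exact ⟨by simp, by simp [hR]; linarith⟩
  · simp_rw [lamT_one]
    exact summable_zero
  · exact ⟨h, by simp [hR]⟩

theorem summable_lamT {z : ℂ} (h : 0 < z.re) : Summable fun j : ℕ => lamT j z := by
  set R : ℝ := ‖z‖ + 2 with hR
  have hRn : 0 ≤ ‖z‖ := norm_nonneg z
  let t : Set ℂ := {w | 0 < w.re} ∩ Metric.ball 0 R
  have ho : IsOpen t := (isOpen_lt continuous_const Complex.continuous_re).inter Metric.isOpen_ball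
  have hc : Convex ℝ t := (convex_halfSpace_re_gt 0).inter (convex_ball 0 R)
  have hu : Summable fun j : ℕ => (1 + R) * (1 / ((j : ℝ) + 1) ^ 2) := summable_sq.mul_left _
  refine summable_of_summable_hasDerivAt_of_isPreconnected (u := fun j : ℕ => (1 + R) * (1 / ((j : ℝ) + 1) ^ 2)) (t := t) (y₀ := 1)
    (g' := lamT') hu ho hc.isPreconnected (fun j y hy => hasDerivAt_lamT j hy.1) (fun j y hy => ?_) ?_ ?_ ?_
  · refine (norm_lamT' j hy.1).trans ?_
    have h1 : ‖y‖ < R := by simpa using hy.2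
    exact mul_le_mul_of_nonneg_right (by linarith) (by positivity)
  · exact ⟨by simp, by simp [hR]; linarith⟩
  · simp_rw [lamT_one]
    exact summable_zero
  · exact ⟨h, by simp [hR]⟩

theorem summable_lamT' {z : ℂ} (h : 0 < z.re) : Summable fun j : ℕ => lamT' j z :=
  Summable.of_norm_bounded (summable_sq.mul_left (1 + ‖z‖)) (fun j => norm_lamT' j h)

theorem tendsto_log_shift (z : ℂ) : Tendsto (fun n : ℕ => Complex.log ((n : ℂ) + 1 + z) - Complex.log ((n : ℂ) + 1)) atTop (𝓝 0) := by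
  have h1 : Tendsto (fun n : ℕ => 1 + z / ((n : ℂ) + 1)) atTop (𝓝 1) := by
    have h2 : Tendsto (fun n : ℕ => z / ((n : ℂ) + 1)) atTop (𝓝 0) := by
      have h3 : Tendsto (fun n : ℕ => ((n : ℂ) + 1)⁻¹) atTop (𝓝 0) := by
        rw [tendsto_zero_iff_norm_tendsto_zero]
        have h4 : ∀ n : ℕ, ‖((n : ℂ) + 1)⁻¹‖ = 1 / ((n : ℝ) + 1) := by
          intro n
          have : ((n : ℂ) + 1) = (((n : ℝ) + 1 : ℝ) : ℂ) := by push_cast; rfl
          rw [this, norm_inv, Complex.norm_real, Real.norm_of_nonneg (by positivity), one_div]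
        simp_rw [h4]
        exact tendsto_one_div_add_atTop_nhds_zero_nat
      have := h3.const_mul z
      simpa [div_eq_mul_inv] using this
    simpa using h2.const_add 1
  have h2 : Tendsto (fun n : ℕ => Complex.log (1 + z / ((n : ℂ) + 1))) atTop (𝓝 0) := by
    have := (h1.clog (by simp : (1 : ℂ) ∈ slitPlane))
    simpa using this
  refine h2.congr' ?_
  have h5 : ∀ᶠ n : ℕ in atTop, 1 + z / ((n : ℂ) + 1) ∈ slitPlane := h1.eventually (isOpen_slitPlane.mem_nhds (by simp))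
  filter_upwards [h5] with n hn
  have hne : ((n : ℂ) + 1) ≠ 0 := Nat.cast_add_one_ne_zero n
  have e : (n : ℂ) + 1 + z = (((n : ℝ) + 1 : ℝ) : ℂ) * (1 + z / ((n : ℂ) + 1)) := by
    push_cast
    field_simp
  have e2 : Complex.log ((n : ℂ) + 1) = ((Real.log ((n : ℝ) + 1) : ℝ) : ℂ) := by
    rw [Complex.ofReal_log (by positivity)]
    congr 1
    push_cast
    ring
  rw [e, Complex.log_ofReal_mul (by positivity) (slitPlane_ne_zero hn), e2]
  ring

/-- Telescoping for the functional equation. -/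
theorem lam_add_one {z : ℂ} (h : 0 < z.re) : lam (z + 1) = lam z + Complex.log (z + 1) := by
  have h1 : 0 < (z + 1).re := by simp; linarith
  have hs := (summable_lamT h1).sub (summable_lamT h)
  have e1 : lam (z + 1) - lam z = ∑' j : ℕ, (lamT j (z + 1) - lamT j z) := by
    rw [(summable_lamT h1).tsum_sub (summable_lamT h)]
    rfl
  have hp : ∀ n : ℕ, ∑ j ∈ Finset.range n, (lamT j (z + 1) - lamT j z) =
      (Complex.log ((n : ℂ) + 1) - Complex.log ((n : ℂ) + 1 + z)) + Complex.log (z + 1) := by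
    intro n
    induction n with
    | zero =>
      simp only [Finset.range_zero, Finset.sum_empty, Nat.cast_zero, zero_add, Complex.log_one]
      rw [add_comm z 1]
      ring
    | succ n ih =>
      rw [Finset.sum_range_succ, ih]
      unfold lamT
      have e2 : Complex.log (((n + 1 : ℕ) : ℂ) + 1) = ((Real.log ((n : ℝ) + 2) : ℝ) : ℂ) := by
        rw [Complex.ofReal_log (by positivity)]
        congr 1
        push_cast
        ring
      have e3 : Complex.log ((n : ℂ) + 1) = ((Real.log ((n : ℝ) + 1) : ℝ) : ℂ) := by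
        rw [Complex.ofReal_log (by positivity)]
        congr 1
        push_cast
        ring
      have e4 : (n : ℂ) + 1 + (z + 1) = ((n + 1 : ℕ) : ℂ) + 1 + z := by
        push_cast
        ring
      rw [e2, e3, e4]
      push_cast
      ring
  have ht : Tendsto (fun n : ℕ => ∑ j ∈ Finset.range n, (lamT j (z + 1) - lamT j z)) atTop (𝓝 (Complex.log (z + 1))) := by
    simp_rw [hp]
    have := (tendsto_log_shift z).neg.add_const (Complex.log (z + 1))
    simpa using this
  have := tendsto_nhds_unique hs.hasSum.tendsto_sum_nat ht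
  rw [← e1] at this
  rw [← this]
  ring

theorem lam_one : lam 1 = 0 := by
  unfold lam
  simp_rw [lamT_one]
  exact tsum_zero

theorem lam_nat (k : ℕ) : lam ((k : ℂ) + 1) = ((Real.log (((k + 1).factorial : ℕ) : ℝ) : ℝ) : ℂ) := by
  induction k with
  | zero => simp [lam_one]
  | succ k ih =>
    have e1 : (((k + 1 : ℕ) : ℂ) + 1) = ((k : ℂ) + 1) + 1 := by push_cast; rfl
    rw [e1, lam_add_one (by simp; positivity), ih]
    have e2 : Complex.log (((k : ℂ) + 1) + 1) = ((Real.log ((k : ℝ) + 2) : ℝ) : ℂ) := by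
      rw [Complex.ofReal_log (by positivity)]
      congr 1
      push_cast
      ring
    rw [e2, ← Complex.ofReal_add]
    congr 1
    rw [← Real.log_mul (by positivity) (by positivity)]
    congr 1
    rw [Nat.factorial_succ (k + 1)]
    push_cast
    ring

theorem lam_nat' {k : ℕ} (hk : 1 ≤ k) : lam (k : ℂ) = ((Real.log ((k.factorial : ℕ) : ℝ) : ℝ) : ℂ) := by
  obtain ⟨m, rfl⟩ := Nat.exists_eq_add_of_le' hk
  have := lam_nat m
  push_cast at this ⊢
  exact this

theorem norm_add_real_ge {w : ℂ} (hw : 0 < w.re) {s : ℝ} (hs : 0 ≤ s) : ‖w‖ ≤ ‖w + (s : ℂ)‖ := by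
  rw [← sq_le_sq₀ (norm_nonneg _) (norm_nonneg _), Complex.sq_norm, Complex.sq_norm, Complex.normSq_apply, Complex.normSq_apply]
  simp only [add_re, ofReal_re, add_im, ofReal_im, add_zero]
  nlinarith [mul_nonneg hw.le hs]

theorem log_step {w : ℂ} (hw : 0 < w.re) : ‖Complex.log (w + 1) - Complex.log w - 1 / (w + 1)‖ ≤ 1 / ‖w‖ ^ 2 := by
  have hw0 : 0 < ‖w‖ := by
    rw [norm_pos_iff]
    intro h
    rw [h] at hw
    simp at hw
  have hre : ∀ s : ℝ, 0 ≤ s → 0 < (w + (s : ℂ)).re := by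
    intro s hs
    simp
    linarith
  have hne : ∀ s : ℝ, 0 ≤ s → w + (s : ℂ) ≠ 0 := fun s hs => slitPlane_ne_zero (re_pos_slit (hre s hs))
  have hd : ∀ s ∈ Set.Icc (0 : ℝ) 1, HasDerivWithinAt (fun s : ℝ => Complex.log (w + (s : ℂ)) - (s : ℂ) / (w + 1))
      (1 / (w + (s : ℂ)) - 1 / (w + 1)) (Set.Icc 0 1) s := by
    intro s hs
    have h0 : HasDerivAt (fun s : ℝ => (s : ℂ)) 1 s := Complex.ofRealCLM.hasDerivAt
    have h1 : HasDerivAt (fun s : ℝ => w + (s : ℂ)) 1 s := h0.const_add w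
    have h2 := h1.clog_real (re_pos_slit (hre s hs.1))
    exact (h2.sub (h0.div_const (w + 1))).hasDerivWithinAt
  have hb : ∀ s ∈ Set.Ico (0 : ℝ) 1, ‖1 / (w + (s : ℂ)) - 1 / (w + 1)‖ ≤ 1 / ‖w‖ ^ 2 := by
    intro s hs
    have h1 := hne s hs.1
    have h2 : w + 1 ≠ 0 := by simpa using hne 1 zero_le_one
    have e : 1 / (w + (s : ℂ)) - 1 / (w + 1) = ((1 - s : ℝ) : ℂ) / ((w + (s : ℂ)) * (w + 1)) := by
      push_cast
      field_simp
      ring
    rw [e, norm_div, norm_mul, Complex.norm_real, Real.norm_of_nonneg (by linarith [hs.2])]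
    have h3 := norm_add_real_ge hw hs.1
    have h4 : ‖w‖ ≤ ‖w + 1‖ := by simpa using norm_add_real_ge hw (zero_le_one (α := ℝ))
    apply div_le_div₀ zero_le_one (by linarith [hs.1]) (by positivity)
    rw [sq]
    exact mul_le_mul h3 h4 hw0.le (hw0.le.trans h3)
  have := norm_image_sub_le_of_norm_deriv_le_segment' hd hb 1 (by simp)
  have e : Complex.log (w + 1) - Complex.log w - 1 / (w + 1) =
      (Complex.log (w + ((1 : ℝ) : ℂ)) - ((1 : ℝ) : ℂ) / (w + 1)) - (Complex.log (w + ((0 : ℝ) : ℂ)) - ((0 : ℝ) : ℂ) / (w + 1)) := by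
    simp only [Complex.ofReal_one, Complex.ofReal_zero, add_zero, zero_div, sub_zero]
    ring
  rw [e]
  refine this.trans (le_of_eq ?_)
  ring

theorem norm_lam'_sub_log {z : ℂ} (h : 0 < z.re) (h2 : 2 ≤ ‖z‖) : ‖lam' z - Complex.log z‖ ≤ 4 / ‖z‖ := by
  have hre : ∀ j : ℕ, 0 < (z + (j : ℂ)).re := by
    intro j
    simp
    positivity
  -- `log z` as a sum
  let b : ℕ → ℂ := fun j => ((Real.log ((j : ℝ) + 2) - Real.log ((j : ℝ) + 1) : ℝ) : ℂ) - (Complex.log (z + (j : ℂ) + 1) - Complex.log (z + (j : ℂ)))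
  let c : ℕ → ℂ := fun j => Complex.log (z + (j : ℂ) + 1) - Complex.log (z + (j : ℂ)) - 1 / (z + (j : ℂ) + 1)
  set r : ℝ := ‖z‖ with hr
  have hc : ∀ j, ‖c j‖ ≤ 2 * (1 / (r + j - 1) - 1 / (r + j)) := by
    intro j
    refine (log_step (hre j)).trans ?_
    have h3 : r ^ 2 + (j : ℝ) ^ 2 ≤ ‖z + (j : ℂ)‖ ^ 2 := by
      rw [hr, Complex.sq_norm, Complex.sq_norm, Complex.normSq_apply, Complex.normSq_apply]
      simp only [add_re, natCast_re, add_im, natCast_im, add_zero]
      have : (0 : ℝ) ≤ j := Nat.cast_nonneg j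
      nlinarith [mul_nonneg h.le this]
    have hj : (0 : ℝ) ≤ j := Nat.cast_nonneg j
    have h4 : (0 : ℝ) < r ^ 2 + (j : ℝ) ^ 2 := by positivity
    calc 1 / ‖z + (j : ℂ)‖ ^ 2 ≤ 1 / (r ^ 2 + (j : ℝ) ^ 2) := one_div_le_one_div_of_le h4 h3
      _ ≤ 2 / (r + j) ^ 2 := by
        rw [div_le_div_iff₀ h4 (by positivity)]
        nlinarith [sq_nonneg (r - j)]
      _ ≤ 2 * (1 / (r + j - 1) - 1 / (r + j)) := by
        have h5 : 0 < r + j - 1 := by linarith
        have h6 : 0 < r + j := by linarith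
        have e : 2 * (1 / (r + j - 1) - 1 / (r + j)) = 2 / ((r + j - 1) * (r + j)) := by
          field_simp
          ring
        rw [e]
        apply div_le_div_of_nonneg_left (by norm_num) (by positivity)
        nlinarith
  have hg : HasSum (fun j : ℕ => 2 * (1 / (r + j - 1) - 1 / (r + j))) (2 / (r - 1)) := by
    rw [hasSum_iff_tendsto_nat_of_nonneg]
    · have hp : ∀ n : ℕ, ∑ j ∈ Finset.range n, 2 * (1 / (r + (j : ℝ) - 1) - 1 / (r + j)) = 2 / (r - 1) - 2 / (r + n - 1) := by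
        intro n
        induction n with
        | zero => simp
        | succ n ih =>
          rw [Finset.sum_range_succ, ih]
          have h5 : r + n - 1 ≠ 0 := by
            have : (0 : ℝ) ≤ n := Nat.cast_nonneg n
            linarith
          have h6 : r + n ≠ 0 := by
            have : (0 : ℝ) ≤ n := Nat.cast_nonneg n
            linarith
          have e : r + ((n + 1 : ℕ) : ℝ) - 1 = r + n := by push_cast; ring
          rw [e]
          ring
      simp_rw [hp]
      have h7 : Tendsto (fun n : ℕ => 2 / (r + n - 1)) atTop (𝓝 0) := by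
        apply Tendsto.const_div_atTop
        have : Tendsto (fun n : ℕ => (r - 1) + (n : ℝ)) atTop atTop := tendsto_atTop_add_const_left _ _ tendsto_natCast_atTop_atTop
        refine this.congr fun n => ?_
        ring
      simpa using h7.const_sub (2 / (r - 1))
    · intro j
      exact (norm_nonneg _).trans (hc j)
  have hcs : Summable c := Summable.of_norm_bounded hg.summable hc
  have hsum : ∀ j, lamT' j z = b j + c j := by
    intro j
    simp only [lamT', b, c]
    rw [show (j : ℂ) + 1 + z = z + j + 1 by ring]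
    ring
  have hbs : Summable b := by
    have : b = fun j => lamT' j z - c j := by
      funext j
      rw [hsum j]
      ring
    rw [this]
    exact (summable_lamT' h).sub hcs
  have hbv : ∑' j, b j = Complex.log z := by
    have hp : ∀ n : ℕ, ∑ j ∈ Finset.range n, b j = Complex.log z - (Complex.log ((n : ℂ) + 1 + (z - 1)) - Complex.log ((n : ℂ) + 1)) := by
      intro n
      induction n with
      | zero => simp
      | succ n ih =>
        rw [Finset.sum_range_succ, ih]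
        simp only [b]
        have e2 : Complex.log (((n + 1 : ℕ) : ℂ) + 1) = ((Real.log ((n : ℝ) + 2) : ℝ) : ℂ) := by
          rw [Complex.ofReal_log (by positivity)]
          congr 1
          push_cast
          ring
        have e3 : Complex.log ((n : ℂ) + 1) = ((Real.log ((n : ℝ) + 1) : ℝ) : ℂ) := by
          rw [Complex.ofReal_log (by positivity)]
          congr 1
          push_cast
          ring
        rw [e2, e3, show (((n + 1 : ℕ) : ℂ) + 1 + (z - 1)) = z + n + 1 by push_cast; ring,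
          show ((n : ℂ) + 1 + (z - 1)) = z + n by ring]
        push_cast
        ring
    have ht : Tendsto (fun n : ℕ => ∑ j ∈ Finset.range n, b j) atTop (𝓝 (Complex.log z)) := by
      simp_rw [hp]
      simpa using (tendsto_log_shift (z - 1)).const_sub (Complex.log z)
    exact tendsto_nhds_unique hbs.hasSum.tendsto_sum_nat ht
  have e : lam' z - Complex.log z = ∑' j, c j := by
    unfold lam'
    simp_rw [hsum]
    rw [hbs.tsum_add hcs, hbv]
    ring
  rw [e]
  refine (tsum_of_norm_bounded hg hc).trans ?_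
  rw [div_le_div_iff₀ (by linarith) (by linarith)]
  nlinarith

theorem lamT_real (j : ℕ) {x : ℝ} (hx : 0 < x) : lamT j (x : ℂ) =
    ((x * (Real.log ((j : ℝ) + 2) - Real.log ((j : ℝ) + 1)) - (Real.log ((j : ℝ) + 1 + x) - Real.log ((j : ℝ) + 1)) : ℝ) : ℂ) := by
  unfold lamT
  have h1 : Complex.log ((j : ℂ) + 1 + (x : ℂ)) = ((Real.log ((j : ℝ) + 1 + x) : ℝ) : ℂ) := by
    rw [Complex.ofReal_log (by positivity)]
    congr 1
    push_cast
    ring
  have h2 : Complex.log ((j : ℂ) + 1) = ((Real.log ((j : ℝ) + 1) : ℝ) : ℂ) := by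
    rw [Complex.ofReal_log (by positivity)]
    congr 1
    push_cast
    ring
  rw [h1, h2]
  push_cast
  ring

/-- `log Γ(x + 1)` for real `x`. -/
noncomputable def lamR (x : ℝ) : ℝ := (lam (x : ℂ)).re

theorem lam_ofReal {x : ℝ} (hx : 0 < x) : lam (x : ℂ) = (lamR x : ℂ) := by
  have h1 : lam (x : ℂ) = ((∑' j : ℕ, (x * (Real.log ((j : ℝ) + 2) - Real.log ((j : ℝ) + 1)) - (Real.log ((j : ℝ) + 1 + x) - Real.log ((j : ℝ) + 1))) : ℝ) : ℂ) := by
    rw [Complex.ofReal_tsum]
    exact tsum_congr fun j => lamT_real j hx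
  rw [lamR, h1, Complex.ofReal_re]

theorem lamT'_real (j : ℕ) (x : ℝ) : lamT' j (x : ℂ) =
    ((Real.log ((j : ℝ) + 2) - Real.log ((j : ℝ) + 1) - 1 / ((j : ℝ) + 1 + x) : ℝ) : ℂ) := by
  unfold lamT'
  push_cast
  ring

/-- The derivative of `lamR`. -/
noncomputable def lamR' (x : ℝ) : ℝ := (lam' (x : ℂ)).re

theorem lam'_ofReal (x : ℝ) : lam' (x : ℂ) = (lamR' x : ℂ) := by
  have h1 : lam' (x : ℂ) = ((∑' j : ℕ, (Real.log ((j : ℝ) + 2) - Real.log ((j : ℝ) + 1) - 1 / ((j : ℝ) + 1 + x)) : ℝ) : ℂ) := by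
    rw [Complex.ofReal_tsum]
    exact tsum_congr fun j => lamT'_real j x
  rw [lamR', h1, Complex.ofReal_re]

theorem hasDerivAt_lamR {x : ℝ} (hx : 0 < x) : HasDerivAt lamR (lamR' x) x :=
  (hasDerivAt_lam (z := (x : ℂ)) (by simpa using hx)).real_of_complex

theorem abs_lamR'_sub_log {x : ℝ} (hx : 2 ≤ x) : |lamR' x - Real.log x| ≤ 4 / x := by
  have h := norm_lam'_sub_log (z := (x : ℂ)) (by simp; linarith) (by rw [Complex.norm_real, Real.norm_of_nonneg (by linarith)]; exact hx)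
  rw [lam'_ofReal, ← Complex.ofReal_log (by linarith), ← Complex.ofReal_sub, Complex.norm_real, Complex.norm_real,
    Real.norm_eq_abs, Real.norm_of_nonneg (by linarith : (0 : ℝ) ≤ x)] at h
  exact h

theorem lamR_nat {k : ℕ} (hk : 1 ≤ k) : lamR (k : ℝ) = Real.log ((k.factorial : ℕ) : ℝ) := by
  have h := lam_nat' hk
  rw [lamR]
  have e : (((k : ℝ)) : ℂ) = (k : ℂ) := by push_cast; rfl
  rw [e, h, Complex.ofReal_re]

/-- `lamR'` is strictly increasing. -/
theorem lamR'_strictMono {x y : ℝ} (hx : 0 < x) (hxy : x < y) : lamR' x < lamR' y := by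
  have sx := summable_lamT' (z := (x : ℂ)) (by simpa using hx)
  have sy := summable_lamT' (z := (y : ℂ)) (by simpa using hx.trans hxy)
  have hs : ∀ w : ℝ, 0 < w → Summable fun j : ℕ => (Real.log ((j : ℝ) + 2) - Real.log ((j : ℝ) + 1) - 1 / ((j : ℝ) + 1 + w)) := by
    intro w hw
    have s := summable_lamT' (z := (w : ℂ)) (by simpa using hw)
    simp_rw [lamT'_real] at s
    exact Complex.summable_ofReal.1 s
  have hv : ∀ w : ℝ, 0 < w → lamR' w = ∑' j : ℕ, (Real.log ((j : ℝ) + 2) - Real.log ((j : ℝ) + 1) - 1 / ((j : ℝ) + 1 + w)) := by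
    intro w hw
    have h1 : lam' (w : ℂ) = ((∑' j : ℕ, (Real.log ((j : ℝ) + 2) - Real.log ((j : ℝ) + 1) - 1 / ((j : ℝ) + 1 + w)) : ℝ) : ℂ) := by
      rw [Complex.ofReal_tsum]
      exact tsum_congr fun j => lamT'_real j w
    rw [lamR', h1, Complex.ofReal_re]
  rw [hv x hx, hv y (hx.trans hxy)]
  refine Summable.tsum_lt_tsum (i := 0) (fun j => ?_) ?_ (hs x hx) (hs y (hx.trans hxy))
  · have : 1 / ((j : ℝ) + 1 + y) ≤ 1 / ((j : ℝ) + 1 + x) := one_div_le_one_div_of_le (by positivity) (by linarith)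
    linarith
  · have : 1 / (((0 : ℕ) : ℝ) + 1 + y) < 1 / (((0 : ℕ) : ℝ) + 1 + x) := one_div_lt_one_div_of_lt (by positivity) (by linarith)
    linarith

end Pool.Agent.Helper47.SG
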