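import Pool.Agent.Helper47.SG.Lam

/-!
# The equation `log Γ(Y+1) - log Γ(z+1) - log Γ(Y-z+1) = α` near a real point (MP_835038_nt)
-/

set_option autoImplicit false

open Filter Topology Complex Metric Set

namespace Pool.Agent.Helper47.SG

/-- The equation of the curve, in the variables `t = log Y` and `z`. -/
noncomputable def FF (α : ℝ) (t z : ℂ) : ℂ := lam (Complex.exp t) - lam z - lam (Complex.exp t - z) - (α : ℂ)

/-- The derivative in `t`. -/
noncomputable def FT (t z : ℂ) : ℂ := Complex.exp t * (lam' (Complex.exp t) - lam' (Complex.exp t - z))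

/-- The derivative in `z`. -/
noncomputable def FZ (t z : ℂ) : ℂ := lam' (Complex.exp t - z) - lam' z

/-- The domain around the real point `(log y, x)`. -/
structure Dom (x y : ℝ) (t z : ℂ) : Prop where
  ht : ‖t - (Real.log y : ℂ)‖ ≤ 1 / 100
  hz : ‖z - (x : ℂ)‖ ≤ x / 400

section Dom

variable {x y : ℝ} {t z : ℂ}

theorem Dom.norm_Y_sub (hy : 0 < y) (h : Dom x y t z) : ‖Complex.exp t - y‖ ≤ y / 50 := by
  have e : Complex.exp t - y = y * (Complex.exp (t - (Real.log y : ℂ)) - 1) := by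
    rw [mul_sub, mul_one, Complex.exp_sub, ← Complex.ofReal_exp, Real.exp_log hy]
    have : (y : ℂ) ≠ 0 := by exact_mod_cast hy.ne'
    field_simp
  rw [e, norm_mul, Complex.norm_real, Real.norm_of_nonneg hy.le]
  have h1 := Complex.norm_exp_sub_one_le (x := t - (Real.log y : ℂ)) (h.ht.trans (by norm_num))
  have h2 := h.ht
  calc y * ‖Complex.exp (t - (Real.log y : ℂ)) - 1‖ ≤ y * (2 * (1 / 100)) := by gcongr; linarith
    _ = y / 50 := by ring

theorem Dom.re_Y (hy : 0 < y) (h : Dom x y t z) : 49 / 50 * y ≤ (Complex.exp t).re := by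
  have h1 := (Complex.abs_re_le_norm _).trans (h.norm_Y_sub hy)
  rw [Complex.sub_re, Complex.ofReal_re, abs_le] at h1
  linarith [h1.1]

theorem Dom.norm_Y (hy : 0 < y) (h : Dom x y t z) : ‖Complex.exp t‖ ≤ 51 / 50 * y := by
  have h1 := h.norm_Y_sub hy
  have h2 : ‖Complex.exp t‖ ≤ ‖Complex.exp t - y‖ + ‖(y : ℂ)‖ := by
    have := norm_add_le (Complex.exp t - y) (y : ℂ)
    rwa [sub_add_cancel] at this
  rw [Complex.norm_real, Real.norm_of_nonneg hy.le] at h2
  linarith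

theorem Dom.re_z (h : Dom x y t z) : 399 / 400 * x ≤ z.re := by
  have h1 := (Complex.abs_re_le_norm _).trans h.hz
  rw [Complex.sub_re, Complex.ofReal_re, abs_le] at h1
  linarith [h1.1]

theorem Dom.re_z' (h : Dom x y t z) : z.re ≤ 401 / 400 * x := by
  have h1 := (Complex.abs_re_le_norm _).trans h.hz
  rw [Complex.sub_re, Complex.ofReal_re, abs_le] at h1
  linarith [h1.2]

theorem Dom.norm_z (hx : 0 < x) (h : Dom x y t z) : ‖z‖ ≤ 401 / 400 * x := by
  have h1 := h.hz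
  have h2 : ‖z‖ ≤ ‖z - x‖ + ‖(x : ℂ)‖ := by
    have := norm_add_le (z - x) (x : ℂ)
    rwa [sub_add_cancel] at this
  rw [Complex.norm_real, Real.norm_of_nonneg hx.le] at h2
  linarith

theorem Dom.re_Yz (hx : 0 < x) (hy : 2 * x ≤ y) (h : Dom x y t z) : 47 / 100 * y ≤ (Complex.exp t - z).re := by
  have h1 := h.re_Y (by linarith)
  have h2 := h.re_z'
  rw [Complex.sub_re]
  linarith

theorem hasDerivAt_FF_t (hx : 0 < x) (hy : 2 * x ≤ y) (h : Dom x y t z) (α : ℝ) : HasDerivAt (fun t => FF α t z) (FT t z) t := by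
  have h1 : 0 < (Complex.exp t).re := lt_of_lt_of_le (by linarith) (h.re_Y (by linarith))
  have h2 : 0 < (Complex.exp t - z).re := lt_of_lt_of_le (by linarith) (h.re_Yz hx hy)
  have d1 : HasDerivAt (fun t => lam (Complex.exp t)) (lam' (Complex.exp t) * Complex.exp t) t :=
    (hasDerivAt_lam h1).comp t (Complex.hasDerivAt_exp t)
  have d2 : HasDerivAt (fun t => lam (Complex.exp t - z)) (lam' (Complex.exp t - z) * Complex.exp t) t :=
    HasDerivAt.comp (h₂ := lam) (h := fun t => Complex.exp t - z) t (hasDerivAt_lam h2) ((Complex.hasDerivAt_exp t).sub_const z)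
  have d3 := ((d1.sub_const (lam z)).sub d2).sub_const (α : ℂ)
  refine d3.congr_deriv ?_
  unfold FT
  ring

theorem hasDerivAt_FF_z (hx : 0 < x) (hy : 2 * x ≤ y) (h : Dom x y t z) (α : ℝ) : HasDerivAt (fun z => FF α t z) (FZ t z) z := by
  have h1 : 0 < z.re := lt_of_lt_of_le (by linarith) h.re_z
  have h2 : 0 < (Complex.exp t - z).re := lt_of_lt_of_le (by linarith) (h.re_Yz hx hy)
  have d1 : HasDerivAt lam (lam' z) z := hasDerivAt_lam h1
  have d2 : HasDerivAt (fun z => lam (Complex.exp t - z)) (lam' (Complex.exp t - z) * (-1)) z :=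
    HasDerivAt.comp (h₂ := lam) (h := fun z => Complex.exp t - z) z (hasDerivAt_lam h2) ((hasDerivAt_id z).const_sub (Complex.exp t))
  have d3 := ((d1.const_sub (lam (Complex.exp t))).sub d2).sub_const (α : ℂ)
  refine d3.congr_deriv ?_
  unfold FZ
  ring

end Dom

/-- `D = y (-log(1 - x/y))`, between `x` and `2x`. -/
noncomputable def DD (x y : ℝ) : ℝ := y * (-Real.log (1 - x / y))

theorem DD_ge {x y : ℝ} (hx : 0 < x) (hy : 2 * x ≤ y) : x ≤ DD x y := by
  have hy0 : 0 < y := by linarith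
  have h1 : x / y ≤ 1 / 2 := by rw [div_le_div_iff₀ hy0 (by norm_num)]; linarith
  have h2 := Real.log_le_sub_one_of_pos (x := 1 - x / y) (by linarith)
  have h3 : x / y ≤ -Real.log (1 - x / y) := by linarith
  calc x = y * (x / y) := by field_simp
    _ ≤ _ := mul_le_mul_of_nonneg_left h3 hy0.le

theorem DD_le {x y : ℝ} (hx : 0 < x) (hy : 2 * x ≤ y) : DD x y ≤ 2 * x := by
  have hy0 : 0 < y := by linarith
  have h1 : x / y ≤ 1 / 2 := by rw [div_le_div_iff₀ hy0 (by norm_num)]; linarith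
  have h0 : 0 < x / y := by positivity
  have h2 := Real.one_sub_inv_le_log_of_pos (x := 1 - x / y) (by linarith)
  have h3 : -Real.log (1 - x / y) ≤ 2 * (x / y) := by
    have h4 : (1 - x / y)⁻¹ - 1 ≤ 2 * (x / y) := by
      have h5 : 0 < 1 - x / y := by linarith
      have : (1 - x / y)⁻¹ ≤ 1 + 2 * (x / y) := by
        rw [inv_le_iff_one_le_mul₀ h5]
        nlinarith
      linarith
    linarith
  calc DD x y ≤ y * (2 * (x / y)) := mul_le_mul_of_nonneg_left h3 hy0.le
    _ = 2 * x := by field_simp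

theorem norm_log_one_sub_le {u : ℂ} {c : ℝ} (hc : 0 ≤ c) (hc1 : c < 1) (hu : ‖u‖ ≤ c) : ‖Complex.log (1 - u)‖ ≤ (1 + c / (2 * (1 - c))) * ‖u‖ := by
  have hu1 : ‖-u‖ < 1 := by rw [norm_neg]; linarith
  have h := Complex.norm_log_one_add_le hu1
  rw [norm_neg] at h
  have e : (1 : ℂ) + -u = 1 - u := by ring
  rw [e] at h
  refine h.trans ?_
  have h1 : 0 < 1 - ‖u‖ := by linarith
  have h2 : (1 - ‖u‖)⁻¹ ≤ (1 - c)⁻¹ := inv_anti₀ (by linarith) (by linarith)
  have h3 : ‖u‖ ^ 2 * (1 - ‖u‖)⁻¹ ≤ (c * ‖u‖) * (1 - c)⁻¹ := by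
    apply mul_le_mul _ h2 (by positivity) (by positivity)
    rw [sq]
    exact mul_le_mul_of_nonneg_right hu (norm_nonneg _)
  have e2 : (1 + c / (2 * (1 - c))) * ‖u‖ = (c * ‖u‖) * (1 - c)⁻¹ / 2 + ‖u‖ := by
    have : 1 - c ≠ 0 := by linarith
    field_simp
    ring
  rw [e2]
  linarith

/-- The `t`-derivative is close to `D`. -/
theorem norm_FT_sub {x y : ℝ} {t z : ℂ} (hx : 1000 ≤ x) (hy : 2 * x ≤ y) (h : Dom x y t z) : ‖FT t z - (DD x y : ℂ)‖ ≤ x / 4 := by
  have hx0 : 0 < x := by linarith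
  have hy0 : 0 < y := by linarith
  set Y : ℂ := Complex.exp t with hY
  have a1 : 49 / 50 * y ≤ Y.re := h.re_Y hy0
  have a2 : ‖Y‖ ≤ 51 / 50 * y := h.norm_Y hy0
  have a3 : 47 / 100 * y ≤ (Y - z).re := h.re_Yz hx0 hy
  have a4 : ‖Y - y‖ ≤ y / 50 := h.norm_Y_sub hy0
  have a5 : ‖z‖ ≤ 401 / 400 * x := h.norm_z hx0
  have a6 : 49 / 50 * y ≤ ‖Y‖ := a1.trans (Complex.re_le_norm _)
  have a7 : 47 / 100 * y ≤ ‖Y - z‖ := a3.trans (Complex.re_le_norm _)
  have hYne : Y ≠ 0 := Complex.exp_ne_zero t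
  have b1 := norm_lam'_sub_log (z := Y) (by linarith) (by linarith)
  have b2 := norm_lam'_sub_log (z := Y - z) (by linarith) (by linarith)
  -- the logarithms
  set U : ℂ := z / Y with hU
  have hUn : ‖U‖ ≤ 103 / 100 * (x / y) := by
    rw [hU, norm_div, div_le_iff₀ (by linarith)]
    calc ‖z‖ ≤ 401 / 400 * x := a5
      _ ≤ 103 / 100 * (x / y) * (49 / 50 * y) := by
        have : 103 / 100 * (x / y) * (49 / 50 * y) = 103 / 100 * (49 / 50) * x := by field_simp
        rw [this]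
        linarith
      _ ≤ 103 / 100 * (x / y) * ‖Y‖ := mul_le_mul_of_nonneg_left a6 (by positivity)
  have hxy : x / y ≤ 1 / 2 := by rw [div_le_div_iff₀ hy0 (by norm_num)]; linarith
  have hxy0 : 0 < x / y := by positivity
  have hUn2 : ‖U‖ ≤ 52 / 100 := by linarith
  have hUre : (1 - U) ∈ slitPlane := by
    apply re_pos_slit
    rw [Complex.sub_re, Complex.one_re]
    have := Complex.re_le_norm U
    linarith
  have l1 : Complex.log (Y - z) = Complex.log Y + Complex.log (1 - U) := by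
    have e : Y - z = Y * (1 - U) := by rw [hU]; field_simp
    rw [e]
    apply Complex.log_mul hYne (slitPlane_ne_zero hUre)
    have c1 : |Complex.arg Y| < Real.pi / 2 := by
      rw [Complex.abs_arg_lt_pi_div_two_iff]
      left
      linarith
    have c2 : |Complex.arg (1 - U)| < Real.pi / 2 := by
      rw [Complex.abs_arg_lt_pi_div_two_iff]
      left
      rw [Complex.sub_re, Complex.one_re]
      have := Complex.re_le_norm U
      linarith
    rw [abs_lt] at c1 c2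
    exact ⟨by linarith [c1.1, c2.1], by linarith [c1.2, c2.2]⟩
  have l2 : ‖Complex.log (1 - U)‖ ≤ 16 / 10 * (x / y) := by
    refine (norm_log_one_sub_le (c := 52 / 100) (by norm_num) (by norm_num) hUn2).trans ?_
    have : (1 + (52 / 100 : ℝ) / (2 * (1 - 52 / 100))) ≤ 155 / 100 := by norm_num
    nlinarith [norm_nonneg U]
  -- the difference with the real value
  have hu1 : (0 : ℝ) < 1 - x / y := by linarith
  set δ : ℂ := (U - ((x / y : ℝ) : ℂ)) / ((1 - x / y : ℝ) : ℂ) with hδ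
  have hUu : ‖U - ((x / y : ℝ) : ℂ)‖ ≤ 24 / 1000 * (x / y) := by
    have e : U - ((x / y : ℝ) : ℂ) = ((z - x) * y - x * (Y - y)) / (y * Y) := by
      rw [hU]
      have : (y : ℂ) ≠ 0 := by exact_mod_cast hy0.ne'
      push_cast
      field_simp
      ring
    rw [e, norm_div, norm_mul, Complex.norm_real, Real.norm_of_nonneg hy0.le, div_le_iff₀ (by positivity)]
    have n1 : ‖(z - (x : ℂ)) * y - x * (Y - y)‖ ≤ x / 400 * y + x * (y / 50) := by
      refine (norm_sub_le _ _).trans ?_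
      rw [norm_mul, norm_mul, Complex.norm_real, Real.norm_of_nonneg hy0.le, Complex.norm_real, Real.norm_of_nonneg hx0.le]
      have := h.hz
      gcongr
    refine n1.trans ?_
    calc x / 400 * y + x * (y / 50) = (9 / 400) * x * y := by ring
      _ ≤ 24 / 1000 * (49 / 50) * x * y := by
        have : 0 < x * y := by positivity
        nlinarith
      _ = 24 / 1000 * (x / y) * (y * (49 / 50 * y)) := by field_simp
      _ ≤ 24 / 1000 * (x / y) * (y * ‖Y‖) := by gcongr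
  have hδn : ‖δ‖ ≤ 48 / 1000 * (x / y) := by
    rw [hδ, norm_div, Complex.norm_real, Real.norm_of_nonneg hu1.le, div_le_iff₀ hu1]
    have : 24 / 1000 * (x / y) ≤ 48 / 1000 * (x / y) * (1 - x / y) := by nlinarith
    linarith
  have l3 : Complex.log (1 - U) = ((Real.log (1 - x / y) : ℝ) : ℂ) + Complex.log (1 - δ) := by
    have e : 1 - U = ((1 - x / y : ℝ) : ℂ) * (1 - δ) := by
      rw [hδ]
      have : ((1 - x / y : ℝ) : ℂ) ≠ 0 := by exact_mod_cast hu1.ne'
      rw [mul_sub, mul_one, mul_div_cancel₀ _ this]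
      push_cast
      ring
    have hne : 1 - δ ≠ 0 := by
      intro h0
      have : δ = 1 := (sub_eq_zero.1 h0).symm
      rw [this, norm_one] at hδn
      linarith
    rw [e, Complex.log_ofReal_mul hu1 hne]
  have l4 : ‖Complex.log (1 - δ)‖ ≤ 5 / 100 * (x / y) := by
    have hδ2 : ‖δ‖ ≤ 24 / 1000 := by linarith
    refine (norm_log_one_sub_le (c := 24 / 1000) (by norm_num) (by norm_num) hδ2).trans ?_
    have : (1 + (24 / 1000 : ℝ) / (2 * (1 - 24 / 1000))) ≤ 102 / 100 := by norm_num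
    nlinarith [norm_nonneg δ]
  -- collect
  have e : FT t z - (DD x y : ℂ) = Y * (lam' Y - Complex.log Y) - Y * (lam' (Y - z) - Complex.log (Y - z))
      + ((-(Y - y)) * Complex.log (1 - U) + (-(y : ℂ)) * Complex.log (1 - δ)) := by
    unfold FT DD
    rw [← hY, l1, l3]
    push_cast
    ring
  rw [e]
  have c1 : ‖Y * (lam' Y - Complex.log Y)‖ ≤ 4 := by
    rw [norm_mul]
    calc ‖Y‖ * ‖lam' Y - Complex.log Y‖ ≤ ‖Y‖ * (4 / ‖Y‖) := by gcongr
      _ = 4 := by
        have : ‖Y‖ ≠ 0 := by positivity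
        field_simp
  have c2 : ‖Y * (lam' (Y - z) - Complex.log (Y - z))‖ ≤ 10 := by
    rw [norm_mul]
    have hYz : 0 < ‖Y - z‖ := by linarith
    calc ‖Y‖ * ‖lam' (Y - z) - Complex.log (Y - z)‖ ≤ (51 / 50 * y) * (4 / ‖Y - z‖) := by gcongr
      _ ≤ (51 / 50 * y) * (4 / (47 / 100 * y)) := by gcongr
      _ ≤ 10 := by
        have : (51 / 50 * y) * (4 / (47 / 100 * y)) = 51 / 50 * 4 / (47 / 100) := by field_simp
        rw [this]
        norm_num
  have c3 : ‖(-(Y - y)) * Complex.log (1 - U)‖ ≤ y / 50 * (16 / 10 * (x / y)) := by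
    rw [norm_mul, norm_neg]
    gcongr
  have c4 : ‖(-(y : ℂ)) * Complex.log (1 - δ)‖ ≤ y * (5 / 100 * (x / y)) := by
    rw [norm_mul, norm_neg, Complex.norm_real, Real.norm_of_nonneg hy0.le]
    gcongr
  have e3 : y / 50 * (16 / 10 * (x / y)) = 16 / 500 * x := by
    field_simp
    norm_num
  have e4 : y * (5 / 100 * (x / y)) = 5 / 100 * x := by field_simp
  rw [e3] at c3
  rw [e4] at c4
  calc _ ≤ ‖Y * (lam' Y - Complex.log Y)‖ + ‖Y * (lam' (Y - z) - Complex.log (Y - z))‖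
      + (‖(-(Y - y)) * Complex.log (1 - U)‖ + ‖(-(y : ℂ)) * Complex.log (1 - δ)‖) :=
        (norm_add_le _ _).trans (add_le_add (norm_sub_le _ _) (norm_add_le _ _))
    _ ≤ 4 + 10 + (16 / 500 * x + 5 / 100 * x) := by gcongr
    _ ≤ x / 4 := by linarith

/-- The `z`-derivative at the base value of `t`. -/
theorem norm_FZ_le {x y : ℝ} {z : ℂ} (hx : 1000 ≤ x) (hy : 2 * x ≤ y) (hz : ‖z - (x : ℂ)‖ ≤ x / 400) :
    ‖FZ (Real.log y : ℂ) z‖ ≤ 1 + Real.log (y / x) := by
  have hx0 : 0 < x := by linarith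
  have hy0 : 0 < y := by linarith
  have hyx : 0 < y - x := by linarith
  have hYe : Complex.exp (Real.log y : ℂ) = (y : ℂ) := by rw [← Complex.ofReal_exp, Real.exp_log hy0]
  have h : Dom x y (Real.log y : ℂ) z := ⟨by simp, hz⟩
  have a3 : 47 / 100 * y ≤ ((y : ℂ) - z).re := by
    have := h.re_Yz hx0 hy
    rwa [hYe] at this
  have a4 := h.re_z
  have a6 : 399 / 400 * x ≤ ‖z‖ := a4.trans (Complex.re_le_norm _)
  have a7 : 47 / 100 * y ≤ ‖(y : ℂ) - z‖ := a3.trans (Complex.re_le_norm _)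
  have b1 := norm_lam'_sub_log (z := z) (by linarith) (by linarith)
  have b2 := norm_lam'_sub_log (z := (y : ℂ) - z) (by linarith) (by linarith)
  have l1 : Complex.log ((y : ℂ) - z) = ((Real.log (y - x) : ℝ) : ℂ) + Complex.log (1 - (z - x) / ((y - x : ℝ) : ℂ)) := by
    have hne : ((y - x : ℝ) : ℂ) ≠ 0 := by exact_mod_cast hyx.ne'
    have e : (y : ℂ) - z = ((y - x : ℝ) : ℂ) * (1 - (z - x) / ((y - x : ℝ) : ℂ)) := by
      rw [mul_sub, mul_one, mul_div_cancel₀ _ hne]
      push_cast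
      ring
    have hne2 : 1 - (z - x) / ((y - x : ℝ) : ℂ) ≠ 0 := by
      intro h0
      rw [h0, mul_zero] at e
      rw [e, norm_zero] at a7
      linarith
    rw [e, Complex.log_ofReal_mul hyx hne2]
  have l2 : Complex.log z = ((Real.log x : ℝ) : ℂ) + Complex.log (1 - (-(z - x) / ((x : ℝ) : ℂ))) := by
    have hne : ((x : ℝ) : ℂ) ≠ 0 := by exact_mod_cast hx0.ne'
    have e : z = ((x : ℝ) : ℂ) * (1 - (-(z - x) / ((x : ℝ) : ℂ))) := by
      rw [mul_sub, mul_one, mul_div_cancel₀ _ hne]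
      ring
    have hne2 : 1 - (-(z - x) / ((x : ℝ) : ℂ)) ≠ 0 := by
      intro h0
      rw [h0, mul_zero] at e
      rw [e, norm_zero] at a6
      linarith
    conv_lhs => rw [e]
    rw [Complex.log_ofReal_mul hx0 hne2]
  have n1 : ‖(z - x) / ((y - x : ℝ) : ℂ)‖ ≤ 1 / 400 := by
    rw [norm_div, Complex.norm_real, Real.norm_of_nonneg hyx.le, div_le_iff₀ hyx]
    linarith
  have n2 : ‖-(z - x) / ((x : ℝ) : ℂ)‖ ≤ 1 / 400 := by
    rw [norm_div, norm_neg, Complex.norm_real, Real.norm_of_nonneg hx0.le, div_le_iff₀ hx0]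
    linarith
  have m1 : ‖Complex.log (1 - (z - x) / ((y - x : ℝ) : ℂ))‖ ≤ 1 / 100 := by
    refine (norm_log_one_sub_le (c := 1 / 400) (by norm_num) (by norm_num) n1).trans ?_
    have : (1 + (1 / 400 : ℝ) / (2 * (1 - 1 / 400))) ≤ 2 := by norm_num
    nlinarith [norm_nonneg ((z - x) / ((y - x : ℝ) : ℂ))]
  have m2 : ‖Complex.log (1 - (-(z - x) / ((x : ℝ) : ℂ)))‖ ≤ 1 / 100 := by
    refine (norm_log_one_sub_le (c := 1 / 400) (by norm_num) (by norm_num) n2).trans ?_
    have : (1 + (1 / 400 : ℝ) / (2 * (1 - 1 / 400))) ≤ 2 := by norm_num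
    nlinarith [norm_nonneg (-(z - x) / ((x : ℝ) : ℂ))]
  have e : FZ (Real.log y : ℂ) z = (lam' ((y : ℂ) - z) - Complex.log ((y : ℂ) - z)) - (lam' z - Complex.log z)
      + ((Real.log (y - x) - Real.log x : ℝ) : ℂ) + (Complex.log (1 - (z - x) / ((y - x : ℝ) : ℂ)) - Complex.log (1 - (-(z - x) / ((x : ℝ) : ℂ)))) := by
    unfold FZ
    rw [hYe, l1, l2]
    push_cast
    ring
  have hr : 0 ≤ Real.log (y - x) - Real.log x ∧ Real.log (y - x) - Real.log x ≤ Real.log (y / x) := by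
    constructor
    · have := Real.log_le_log hx0 (by linarith : x ≤ y - x)
      linarith
    · rw [Real.log_div hy0.ne' hx0.ne']
      have := Real.log_le_log hyx (by linarith : y - x ≤ y)
      linarith
  have c1 : ‖lam' ((y : ℂ) - z) - Complex.log ((y : ℂ) - z)‖ ≤ 1 / 10 := by
    refine b2.trans ?_
    rw [div_le_iff₀ (by linarith)]
    linarith
  have c2 : ‖lam' z - Complex.log z‖ ≤ 1 / 10 := by
    refine b1.trans ?_
    rw [div_le_iff₀ (by linarith)]
    linarith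
  have c3 : ‖((Real.log (y - x) - Real.log x : ℝ) : ℂ)‖ ≤ Real.log (y / x) := by
    rw [Complex.norm_real, Real.norm_of_nonneg hr.1]
    exact hr.2
  rw [e]
  calc _ ≤ ‖lam' ((y : ℂ) - z) - Complex.log ((y : ℂ) - z)‖ + ‖lam' z - Complex.log z‖ + ‖((Real.log (y - x) - Real.log x : ℝ) : ℂ)‖
      + (‖Complex.log (1 - (z - x) / ((y - x : ℝ) : ℂ))‖ + ‖Complex.log (1 - (-(z - x) / ((x : ℝ) : ℂ)))‖) :=
        (norm_add_le _ _).trans (add_le_add ((norm_add_le _ _).trans (add_le_add (norm_sub_le _ _) le_rfl)) (norm_sub_le _ _))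
    _ ≤ 1 / 10 + 1 / 10 + Real.log (y / x) + (1 / 100 + 1 / 100) := by gcongr
    _ ≤ _ := by linarith

end Pool.Agent.Helper47.SG
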