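import Pool.Agent.Helper47.SG.LS

/-!
# Real points of the curve, one step to the left, uniqueness (MP_835038_nt)
-/

set_option autoImplicit false

open Filter Topology Complex Metric Set

namespace Pool.Agent.Helper47.SG

/-- `log` of the binomial coefficient, real version. -/
noncomputable def psi (y x : ℝ) : ℝ := lamR y - lamR x - lamR (y - x)

theorem FF_ofReal {α y x : ℝ} (hx : 0 < x) (hxy : x < y) : FF α (Real.log y : ℂ) (x : ℂ) = ((psi y x - α : ℝ) : ℂ) := by
  have hy : 0 < y := hx.trans hxy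
  unfold FF psi
  rw [← Complex.ofReal_exp, Real.exp_log hy, ← Complex.ofReal_sub, lam_ofReal hy, lam_ofReal hx, lam_ofReal (by linarith)]
  push_cast
  ring

theorem base_iff {α y x : ℝ} (hx : 0 < x) (hxy : x < y) : Base x y α ↔ psi y x = α := by
  unfold Base
  rw [FF_ofReal hx hxy]
  constructor
  · intro h
    have : psi y x - α = 0 := by exact_mod_cast h
    linarith
  · intro h
    rw [h]
    simp

theorem hasDerivAt_psi_y {y x : ℝ} (hx : 0 < x) (hxy : x < y) : HasDerivAt (fun y => psi y x) (lamR' y - lamR' (y - x)) y := by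
  have h1 := hasDerivAt_lamR (x := y) (hx.trans hxy)
  have h2 : HasDerivAt (fun y => lamR (y - x)) (lamR' (y - x)) y := by
    have := HasDerivAt.comp (h₂ := lamR) (h := fun y => y - x) y (hasDerivAt_lamR (x := y - x) (by linarith)) ((hasDerivAt_id y).sub_const x)
    exact this.congr_deriv (by ring)
  exact (h1.sub_const _).sub h2

theorem hasDerivAt_psi_x {y x : ℝ} (hx : 0 < x) (hxy : x < y) : HasDerivAt (fun x => psi y x) (lamR' (y - x) - lamR' x) x := by
  have h1 := hasDerivAt_lamR (x := x) hx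
  have h2 : HasDerivAt (fun x => lamR (y - x)) (-lamR' (y - x)) x := by
    have := HasDerivAt.comp (h₂ := lamR) (h := fun x => y - x) x (hasDerivAt_lamR (x := y - x) (by linarith)) ((hasDerivAt_id x).const_sub y)
    exact this.congr_deriv (by ring)
  have h3 := (h1.const_sub (lamR y)).sub h2
  refine h3.congr_deriv ?_
  ring

theorem psi_strictMono {x : ℝ} (hx : 0 < x) : StrictMonoOn (fun y => psi y x) (Ioi x) := by
  apply strictMonoOn_of_deriv_pos (convex_Ioi x)
  · intro y hy
    exact (hasDerivAt_psi_y hx hy).continuousAt.continuousWithinAt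
  · intro y hy
    rw [interior_Ioi] at hy
    rw [(hasDerivAt_psi_y hx hy).deriv]
    have hy' : x < y := hy
    have := lamR'_strictMono (x := y - x) (y := y) (by linarith) (by linarith)
    linarith

theorem psi_inj {x y y' : ℝ} (hx : 0 < x) (hy : x < y) (hy' : x < y') (h : psi y x = psi y' x) : y = y' :=
  (psi_strictMono hx).injOn hy hy' h

theorem psi_mono_x {y x x' : ℝ} (hx' : 0 < x') (hxx : x' ≤ x) (hy : 2 * x ≤ y) : psi y x' ≤ psi y x := by
  have h : MonotoneOn (fun x => psi y x) (Icc x' x) := by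
    apply monotoneOn_of_deriv_nonneg (convex_Icc x' x)
    · intro s hs
      exact (hasDerivAt_psi_x (by linarith [hs.1]) (by linarith [hs.1, hs.2])).continuousAt.continuousWithinAt
    · intro s hs
      rw [interior_Icc] at hs
      exact (hasDerivAt_psi_x (by linarith [hs.1]) (by linarith [hs.1, hs.2])).differentiableAt.differentiableWithinAt
    · intro s hs
      rw [interior_Icc] at hs
      rw [(hasDerivAt_psi_x (by linarith [hs.1]) (by linarith [hs.1, hs.2])).deriv]
      rcases eq_or_lt_of_le (by linarith [hs.2] : s ≤ y - s) with h1 | h1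
      · rw [← h1]
        simp
      · have := lamR'_strictMono (x := s) (y := y - s) (by linarith [hs.1]) h1
        linarith
  exact h (left_mem_Icc.2 hxx) (right_mem_Icc.2 hxx) hxx

/-- The increase of `psi` in the `x` direction. -/
theorem psi_x_ge {y x x' : ℝ} (hx : 1000 ≤ x) (hxx : x' ≤ x) (hx' : 399 / 400 * x ≤ x') (hy : 2 * x ≤ y) :
    (x - x') * (Real.log (y / x - 1) - 9 / x) ≤ psi y x - psi y x' := by
  have hx0 : 0 < x := by linarith
  have hyx : 0 < y - x := by linarith
  have e : Real.log (y / x - 1) = Real.log (y - x) - Real.log x := by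
    rw [← Real.log_div hyx.ne' hx0.ne']
    congr 1
    field_simp
  have key : ∀ s ∈ interior (Icc x' x), Real.log (y / x - 1) - 9 / x ≤ deriv (fun x => psi y x) s := by
    intro s hs
    rw [interior_Icc] at hs
    have hs0 : 399 / 400 * x ≤ s := by linarith [hs.1]
    rw [(hasDerivAt_psi_x (by linarith [hs.1]) (by linarith [hs.1, hs.2])).deriv]
    have h1 := abs_lamR'_sub_log (x := y - s) (by linarith [hs.2])
    have h2 := abs_lamR'_sub_log (x := s) (by linarith)
    rw [abs_le] at h1 h2
    have h3 : Real.log (y - x) ≤ Real.log (y - s) := Real.log_le_log hyx (by linarith [hs.2])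
    have h4 : Real.log s ≤ Real.log x := Real.log_le_log (by linarith) hs.2.le
    have h5 : 4 / (y - s) ≤ 4 / x := div_le_div_of_nonneg_left (by norm_num) hx0 (by linarith [hs.2])
    have h6 : 4 / s ≤ 5 / x := by
      rw [div_le_div_iff₀ (by linarith) hx0]
      linarith
    have h7 : 9 / x = 4 / x + 5 / x := by ring
    rw [e, h7]
    linarith [h1.1, h2.2]
  have := Convex.mul_sub_le_image_sub_of_le_deriv (convex_Icc x' x) (f := fun x => psi y x) (C := Real.log (y / x - 1) - 9 / x)
    (fun s hs => (hasDerivAt_psi_x (by linarith [hs.1]) (by linarith [hs.1, hs.2])).continuousAt.continuousWithinAt)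
    (by
      intro s hs
      rw [interior_Icc] at hs
      exact (hasDerivAt_psi_x (by linarith [hs.1]) (by linarith [hs.1, hs.2])).differentiableAt.differentiableWithinAt)
    key x' (left_mem_Icc.2 hxx) x (right_mem_Icc.2 hxx) hxx
  rw [mul_comm]
  exact this

/-- The increase of `psi` in the `log y` direction. -/
theorem psi_t_le {y y' x x' : ℝ} (hx : 1000 ≤ x) (hxx : x' ≤ x) (hx' : 399 / 400 * x ≤ x') (hy : 2 * x ≤ y) (hyy : y ≤ y')
    (hyy' : Real.log y' ≤ Real.log y + 1 / 100) : psi y' x' - psi y x' ≤ (Real.log y' - Real.log y) * (9 / 4 * x) := by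
  have hx0 : 0 < x := by linarith
  have hy0 : 0 < y := by linarith
  have hx'0 : 0 < x' := by linarith
  have hll : Real.log y ≤ Real.log y' := Real.log_le_log hy0 hyy
  have hd : ∀ s ∈ Icc (Real.log y) (Real.log y'), HasDerivAt (fun s => psi (Real.exp s) x')
      (Real.exp s * (lamR' (Real.exp s) - lamR' (Real.exp s - x'))) s := by
    intro s hs
    have h1 : y ≤ Real.exp s := by
      rw [← Real.log_le_iff_le_exp hy0]
      exact hs.1
    have h2 := (hasDerivAt_psi_y (y := Real.exp s) (x := x') hx'0 (by linarith)).comp s (Real.hasDerivAt_exp s)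
    refine h2.congr_deriv ?_
    ring
  have key : ∀ s ∈ interior (Icc (Real.log y) (Real.log y')), deriv (fun s => psi (Real.exp s) x') s ≤ 9 / 4 * x := by
    intro s hs
    rw [interior_Icc] at hs
    rw [(hd s ⟨hs.1.le, hs.2.le⟩).deriv]
    have hdom : Dom x y (s : ℂ) (x' : ℂ) := by
      constructor
      · rw [← Complex.ofReal_sub, Complex.norm_real, Real.norm_eq_abs, abs_le]
        constructor <;> linarith [hs.1, hs.2]
      · rw [← Complex.ofReal_sub, Complex.norm_real, Real.norm_eq_abs, abs_le]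
        constructor <;> linarith
    have h3 := norm_FT_sub hx hy hdom
    have e : FT (s : ℂ) (x' : ℂ) = ((Real.exp s * (lamR' (Real.exp s) - lamR' (Real.exp s - x')) : ℝ) : ℂ) := by
      unfold FT
      rw [← Complex.ofReal_exp, ← Complex.ofReal_sub, lam'_ofReal, lam'_ofReal]
      push_cast
      ring
    rw [e, ← Complex.ofReal_sub, Complex.norm_real, Real.norm_eq_abs, abs_le] at h3
    have h4 := DD_le hx0 hy
    linarith [h3.2]
  have := Convex.image_sub_le_mul_sub_of_deriv_le (convex_Icc (Real.log y) (Real.log y')) (f := fun s => psi (Real.exp s) x') (C := 9 / 4 * x)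
    (fun s hs => (hd s hs).continuousAt.continuousWithinAt)
    (by
      intro s hs
      rw [interior_Icc] at hs
      exact (hd s ⟨hs.1.le, hs.2.le⟩).differentiableAt.differentiableWithinAt)
    key (Real.log y) (left_mem_Icc.2 hll) (Real.log y') (right_mem_Icc.2 hll) hll
  simp only [Real.exp_log hy0, Real.exp_log (hy0.trans_le hyy)] at this
  rw [mul_comm]
  exact this

/-- One step to the left. -/
theorem step {x y α : ℝ} (hx : 1000 ≤ x) (hy : 2 * x ≤ y) (hb : Base x y α) : ∃ y', y ≤ y' ∧ Base (x - rad x y / 8) y' α ∧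
    Real.log y' ≤ Real.log y + 1 / 100 ∧
    rad x y / 8 / x * (Real.log (y / x - 1) - 9 / x) / 3 ≤ Real.log y' - Real.log y := by
  have hx0 : 0 < x := by linarith
  have hy0 : 0 < y := by linarith
  obtain ⟨g, hg1, hg2⟩ := local_solution hx hy hb
  have hr0 := rad_pos hx0 hy
  have hr := rad_le hx0 hy
  set x' : ℝ := x - rad x y / 8 with hx'
  have hx'1 : 399 / 400 * x ≤ x' := by linarith
  have hx'0 : 0 < x' := by linarith
  have hmem : (x' : ℂ) ∈ ball (x : ℂ) (rad x y) := by
    rw [mem_ball, dist_eq_norm, ← Complex.ofReal_sub, Complex.norm_real, Real.norm_eq_abs, abs_lt]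
    constructor <;> linarith
  obtain ⟨g1, g2, g3⟩ := hg2 _ hmem
  have g3' := g3 (Complex.ofReal_im x')
  have eg : g (x' : ℂ) = ((g (x' : ℂ)).re : ℂ) := by apply Complex.ext <;> simp [g3']
  set t' : ℝ := (g (x' : ℂ)).re with ht'
  have hy'l : Real.log (Real.exp t') = t' := Real.log_exp t'
  have hb' : Base x' (Real.exp t') α := by
    unfold Base
    rw [hy'l, ← eg]
    exact g2
  have htt : |t' - Real.log y| ≤ 1 / 200 := by
    rw [eg, ← Complex.ofReal_sub, Complex.norm_real, Real.norm_eq_abs] at g1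
    exact g1
  rw [abs_le] at htt
  have hlow : y * (49 / 50) ≤ Real.exp t' := by
    have h1 : Real.exp (Real.log y - 1 / 200) ≤ Real.exp t' := Real.exp_le_exp.2 (by linarith [htt.1])
    have h2 : 1 - 1 / 200 ≤ Real.exp (-(1 / 200)) := by
      have := Real.add_one_le_exp (-(1 / 200) : ℝ)
      linarith
    rw [sub_eq_add_neg, Real.exp_add, Real.exp_log hy0] at h1
    nlinarith
  have hx'y' : x' < Real.exp t' := by linarith
  have p1 : psi (Real.exp t') x' = α := (base_iff hx'0 hx'y').1 hb'
  have p2 : psi y x = α := (base_iff hx0 (by linarith)).1 hb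
  have p3 : psi y x' ≤ psi y x := psi_mono_x hx'0 (by linarith) hy
  have hyy : y ≤ Real.exp t' := by
    by_contra hcon
    push Not at hcon
    have := psi_strictMono hx'0 hx'y' (by show x' < y; linarith) hcon
    simp only at this
    linarith
  refine ⟨Real.exp t', hyy, hb', by rw [hy'l]; linarith [htt.2], ?_⟩
  have q1 := psi_x_ge hx (by linarith : x' ≤ x) hx'1 hy
  have q2 := psi_t_le hx (by linarith : x' ≤ x) hx'1 hy hyy (by rw [hy'l]; linarith [htt.2])
  have q3 : (x - x') * (Real.log (y / x - 1) - 9 / x) ≤ (Real.log (Real.exp t') - Real.log y) * (9 / 4 * x) := by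
    calc _ ≤ psi y x - psi y x' := q1
      _ = psi (Real.exp t') x' - psi y x' := by rw [p1, p2]
      _ ≤ _ := q2
  have hll : 0 ≤ Real.log (Real.exp t') - Real.log y := by
    have := Real.log_le_log hy0 hyy
    linarith
  have e1 : x - x' = rad x y / 8 := by rw [hx']; ring
  rw [e1] at q3
  rw [div_le_iff₀ (by norm_num), div_mul_eq_mul_div, div_le_iff₀ hx0]
  calc rad x y / 8 * (Real.log (y / x - 1) - 9 / x) ≤ (Real.log (Real.exp t') - Real.log y) * (9 / 4 * x) := q3
    _ ≤ (Real.log (Real.exp t') - Real.log y) * (3 * x) := by gcongr; norm_num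
    _ = _ := by ring

/-- Local solutions with the same `α` agree. -/
theorem consistent {x y x' y' α : ℝ} (hx : 1000 ≤ x) (hy : 2 * x ≤ y) (hx' : 1000 ≤ x') (hy' : 2 * x' ≤ y')
    {g g' : ℂ → ℂ} (hg : DifferentiableOn ℂ g (ball (x : ℂ) (rad x y)))
    (hg2 : ∀ z ∈ ball (x : ℂ) (rad x y), ‖g z - (Real.log y : ℂ)‖ ≤ 1 / 200 ∧ FF α (g z) z = 0 ∧ (z.im = 0 → (g z).im = 0))
    (hg' : DifferentiableOn ℂ g' (ball (x' : ℂ) (rad x' y')))
    (hg2' : ∀ z ∈ ball (x' : ℂ) (rad x' y'), ‖g' z - (Real.log y' : ℂ)‖ ≤ 1 / 200 ∧ FF α (g' z) z = 0 ∧ (z.im = 0 → (g' z).im = 0))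
    (hxx : |x' - x| < rad x y) {z : ℂ} (hz : z ∈ ball (x : ℂ) (rad x y) ∩ ball (x' : ℂ) (rad x' y')) : g' z = g z := by
  have real_eq : ∀ s : ℝ, (s : ℂ) ∈ ball (x : ℂ) (rad x y) → (s : ℂ) ∈ ball (x' : ℂ) (rad x' y') → g' (s : ℂ) = g (s : ℂ) := by
    intro s hs hs'
    have main : ∀ (a b : ℝ) (f : ℂ → ℂ), 1000 ≤ a → 2 * a ≤ b → (s : ℂ) ∈ ball (a : ℂ) (rad a b) →
        (‖f s - (Real.log b : ℂ)‖ ≤ 1 / 200 ∧ FF α (f s) s = 0 ∧ ((s : ℂ).im = 0 → (f s).im = 0)) →
        0 < s ∧ s < Real.exp (f s).re ∧ psi (Real.exp (f s).re) s = α ∧ f s = ((f s).re : ℂ) := by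
      intro a b f ha hab hsa hf
      have ha0 : 0 < a := by linarith
      have hdom : Dom a b (f s) (s : ℂ) := by
        refine ⟨hf.1.trans (by norm_num), ?_⟩
        have := mem_ball.1 hsa
        rw [dist_eq_norm] at this
        exact this.le.trans (rad_le ha0 hab)
      have e : f s = ((f s).re : ℂ) := by apply Complex.ext <;> simp [hf.2.2 (Complex.ofReal_im s)]
      have h1 : 0 < s := by
        have := hdom.re_z
        rw [Complex.ofReal_re] at this
        linarith
      have h2 := hdom.re_Yz ha0 hab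
      rw [e, ← Complex.ofReal_exp, ← Complex.ofReal_sub, Complex.ofReal_re] at h2
      have h3 : s < Real.exp (f s).re := by linarith
      refine ⟨h1, h3, ?_, e⟩
      have h4 : Base s (Real.exp (f s).re) α := by
        unfold Base
        rw [Real.log_exp, ← e]
        exact hf.2.1
      exact (base_iff h1 h3).1 h4
    obtain ⟨a1, a2, a3, a4⟩ := main x y g hx hy hs (hg2 _ hs)
    obtain ⟨b1, b2, b3, b4⟩ := main x' y' g' hx' hy' hs' (hg2' _ hs')
    have := psi_inj a1 a2 b2 (a3.trans b3.symm)
    have h5 := Real.exp_injective this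
    rw [a4, b4, h5]
  set U : Set ℂ := ball (x : ℂ) (rad x y) ∩ ball (x' : ℂ) (rad x' y') with hU
  have hUo : IsOpen U := isOpen_ball.inter isOpen_ball
  have hUc : IsPreconnected U := ((convex_ball _ _).inter (convex_ball _ _)).isPreconnected
  have hx'0 : 0 < x' := by linarith
  have hp : (x' : ℂ) ∈ U := by
    refine ⟨?_, mem_ball_self (rad_pos hx'0 hy')⟩
    rw [mem_ball, dist_eq_norm, ← Complex.ofReal_sub, Complex.norm_real, Real.norm_eq_abs]
    exact hxx
  have an1 : AnalyticOnNhd ℂ g U := (hg.mono inter_subset_left).analyticOnNhd hUo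
  have an2 : AnalyticOnNhd ℂ g' U := (hg'.mono inter_subset_right).analyticOnNhd hUo
  refine an2.eqOn_of_preconnected_of_frequently_eq an1 hUc hp ?_ hz
  -- real points near `x'`
  have hseq : Tendsto (fun n : ℕ => ((x' + 1 / ((n : ℝ) + 1) : ℝ) : ℂ)) atTop (𝓝[≠] (x' : ℂ)) := by
    rw [tendsto_nhdsWithin_iff]
    constructor
    · have h1 : Tendsto (fun n : ℕ => x' + 1 / ((n : ℝ) + 1)) atTop (𝓝 (x' + 0)) := tendsto_one_div_add_atTop_nhds_zero_nat.const_add x'
      rw [add_zero] at h1
      exact (Complex.continuous_ofReal.tendsto x').comp h1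
    · refine Eventually.of_forall fun n => ?_
      simp only [mem_compl_iff, mem_singleton_iff, Complex.ofReal_inj]
      have : 0 < 1 / ((n : ℝ) + 1) := by positivity
      linarith
  apply hseq.frequently
  apply Eventually.frequently
  have hev : ∀ᶠ n : ℕ in atTop, ((x' + 1 / ((n : ℝ) + 1) : ℝ) : ℂ) ∈ U :=
    (tendsto_nhdsWithin_iff.1 hseq).1.eventually (hUo.mem_nhds hp)
  filter_upwards [hev] with n hn
  exact real_eq _ hn.1 hn.2

end Pool.Agent.Helper47.SG
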